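import Pool.Agent.R686.JT

set_option autoImplicit false

/-!
# No contiguous Jordan type for a non-unimodal Hilbert function

Let `K` be a local commutative algebra of finite dimension over a field `k`, with maximal ideal
`𝔪` (this includes every Artinian Gorenstein quotient of a power series ring over `k`), and suppose
that the Hilbert function `H : i ↦ dim 𝔪 ^ i / 𝔪 ^ (i + 1)` of `K` is not unimodal. Then for no
`l ∈ 𝔪` (in particular for no linear form) is the Jordan type of the multiplication by `l` on `K`
equal to the contiguous partition of `H`; it does not even dominate it.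

(The Jordan type of a nilpotent endomorphism exists:
`Pool.Agent.R686.JT.exists_isJordanType`.)
-/

universe u v

namespace Pool.Agent.Results.MP_de5a23_al.NeverContiguous

open Pool.Agent.R686.JT

theorem result (k : Type u) [Field k] (K : Type v) [CommRing K] [Algebra k K] [IsLocalRing K]
    [Module.Finite k K] (hH : ¬ Unimodal (hilb k K)) (l : K)
    (hl : l ∈ IsLocalRing.maximalIdeal K) (P : Multiset ℕ)
    (hP : IsJordanType k (LinearMap.mulLeft k l) P) :
    ¬ Dominates P (contiguous (hilb k K)) ∧ P ≠ contiguous (hilb k K) := by
  have h1 : ¬ Dominates P (contiguous (hilb k K)) := fun h => hH (main hl hP h).1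
  exact ⟨h1, fun h => h1 (h ▸ fun _ => le_rfl)⟩

end Pool.Agent.Results.MP_de5a23_al.NeverContiguous
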